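import Mathlib
import Pool.Agent.Lib_MP_76bad1_co.Graph

set_option autoImplicit false

open Polynomial

namespace Pool.Agent.Results.MP_76bad1_co.FlowCoefficients

variable {V : Type*} [Fintype V] [DecidableEq V]

/-- `c(Z)`: the number of connected components of the spanning subgraph `(V, Z)`. -/
noncomputable def numComponents (Z : Finset (Sym2 V)) : ℕ :=
  Nat.card (SimpleGraph.fromEdgeSet (Z : Set (Sym2 V))).ConnectedComponent

/-- Tutte's flow polynomial of a simple graph `G` with `n` vertices and `m` edges,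
`F(G, t) = ∑_{Z ⊆ E(G)} (-1)^(m - |Z|) t^(|Z| + c(Z) - n)`. -/
noncomputable def flowPolynomial (G : SimpleGraph V) [DecidableRel G.Adj] : ℤ[X] :=
  ∑ Z ∈ G.edgeFinset.powerset,
    (-1) ^ (G.edgeFinset.card - Z.card) * X ^ (Z.card + numComponents Z - Fintype.card V)

/-- For every simple connected bridgeless cubic graph `G` on `n ≥ 6` vertices the coefficients `c_k`
of its flow polynomial satisfy `b_k ≤ |c_k|` for all `k`, where
`∑ b_k t^k = (t + 1) (t + 2)^(n/2 - 2) (t + 3)^2`. -/
theorem result (G : SimpleGraph V) [DecidableRel G.Adj]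
    (hconn : G.Connected)
    (hbridgeless : ∀ e ∈ G.edgeSet, ¬ G.IsBridge e)
    (hcubic : ∀ v, G.degree v = 3)
    (hn : 6 ≤ Fintype.card V) (k : ℕ) :
    ((X + 1) * (X + 2) ^ (Fintype.card V / 2 - 2) * (X + 3) ^ 2 : ℤ[X]).coeff k ≤
      |(flowPolynomial G).coeff k| :=
  Pool.Agent.FlowCubic.flow_bound G hconn hbridgeless hcubic hn k

end Pool.Agent.Results.MP_76bad1_co.FlowCoefficients
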